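import Mathlib

/-!
# The Katetov number of an intersection of ideals

We refute, in ZFC, the statement that `p_K(I, J0 ∩ J1) = p_K(I, J0 ⊕ J1)` for all ideals
`I, J0, J1` on `ω`.
-/

open Set Cardinal

namespace Pool.Agent.Results.MP_8697f8_lc.KatetovIntersection

/-- An ideal on `ω`: a proper ideal of subsets of `ω` containing every finite set. -/
structure IsIdealOn (I : Set (Set ℕ)) : Prop where
  proper : Set.univ ∉ I
  finite_mem : ∀ A : Set ℕ, A.Finite → A ∈ I
  subset_mem : ∀ A ∈ I, ∀ B ⊆ A, B ∈ I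
  union_mem : ∀ A ∈ I, ∀ B ∈ I, A ∪ B ∈ I

/-- `A ≤_K J`: there is `f : ω → ω` with `f⁻¹[a] ∈ J` for every `a ∈ A`. -/
def KatetovLE (A J : Set (Set ℕ)) : Prop := ∃ f : ℕ → ℕ, ∀ a ∈ A, f ⁻¹' a ∈ J

/-- `p_K(I,J)`: the least size of a subfamily `A` of `I` with `A ≰_K J`, where the minimum of the
empty set is `∞` (here `⊤`). -/
noncomputable def pK (I J : Set (Set ℕ)) : WithTop Cardinal.{0} :=
  sInf {κ | ∃ A : Set (Set ℕ), A ⊆ I ∧ ¬ KatetovLE A J ∧ κ = ((#A : Cardinal.{0}) : WithTop _)}

/-- `J0 ⊕ J1`, moved to `ω` by the bijection `(i,n) ↦ 2n+i`. -/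
def sumIdeal (J0 J1 : Set (Set ℕ)) : Set (Set ℕ) :=
  {A | {n | 2 * n ∈ A} ∈ J0 ∧ {n | 2 * n + 1 ∈ A} ∈ J1}

/-- The ideal of all sets `A` such that for some `m`, for all `n ≥ m`, there are at most `m`
elements `k` with `e n k ∈ A`. -/
def ED (e : ℕ → ℕ → ℕ) : Set (Set ℕ) := {A | ∃ m : ℕ, ∀ n ≥ m, {k | e n k ∈ A}.encard ≤ m}

/-- coordinates: `n` is the column -/
def col (n k : ℕ) : ℕ := Nat.pair n k

/-- coordinates: `n` is the row -/
def row (n k : ℕ) : ℕ := Nat.pair k n

theorem ED_ideal {e : ℕ → ℕ → ℕ} (he : ∀ n, Function.Injective (e n))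
    (hf : ∀ x : ℕ, {n | ∃ k, e n k = x}.Finite) : IsIdealOn (ED e) where
  proper := by
    rintro ⟨m, hm⟩
    have h := hm m le_rfl
    simp only [Set.mem_univ] at h
    rw [Set.ofPred_true, Set.encard_univ] at h
    simp at h
  finite_mem := by
    intro A hA
    have h1 : (⋃ x ∈ A, {n | ∃ k, e n k = x}).Finite := hA.biUnion fun x _ => hf x
    obtain ⟨m, hm⟩ := h1.bddAbove
    refine ⟨m + 1, fun n hn => ?_⟩
    have : {k | e n k ∈ A} = ∅ := by
      ext k
      simp only [Set.mem_ofPred_eq, Set.mem_empty_iff_false, iff_false]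
      intro hk
      have : n ≤ m := hm (Set.mem_biUnion hk ⟨k, rfl⟩)
      omega
    rw [this]; simp
  subset_mem := by
    rintro A ⟨m, hm⟩ B hB
    exact ⟨m, fun n hn => (Set.encard_le_encard
      (show {k | e n k ∈ B} ⊆ {k | e n k ∈ A} from fun k hk => hB hk)).trans (hm n hn)⟩
  union_mem := by
    rintro A ⟨m, hm⟩ B ⟨m', hm'⟩
    refine ⟨m + m', fun n hn => ?_⟩
    have h1 := hm n (by omega)
    have h2 := hm' n (by omega)
    have h3 : {k | e n k ∈ A ∪ B} = {k | e n k ∈ A} ∪ {k | e n k ∈ B} := rfl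
    rw [h3]
    refine (Set.encard_union_le _ _).trans ?_
    push_cast
    exact add_le_add h1 h2

theorem col_inj (n : ℕ) : Function.Injective (col n) := fun a b h => by
  have := congrArg (fun x => (Nat.unpair x).2) h
  simpa [col] using this

theorem row_inj (n : ℕ) : Function.Injective (row n) := fun a b h => by
  have := congrArg (fun x => (Nat.unpair x).1) h
  simpa [row] using this

theorem col_fin (x : ℕ) : {n | ∃ k, col n k = x}.Finite := by
  refine (Set.finite_singleton (Nat.unpair x).1).subset ?_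
  rintro n ⟨k, rfl⟩
  simp [col]

theorem row_fin (x : ℕ) : {n | ∃ k, row n k = x}.Finite := by
  refine (Set.finite_singleton (Nat.unpair x).2).subset ?_
  rintro n ⟨k, rfl⟩
  simp [row]

/-- The swap of the coordinates. -/
def swap (x : ℕ) : ℕ := Nat.pair (Nat.unpair x).2 (Nat.unpair x).1

/-- `ED col ≤_K ED col` and `ED col ≤_K ED row`. -/
theorem pK_sum_eq_top : pK (ED col) (sumIdeal (ED col) (ED row)) = ⊤ := by
  unfold pK
  rw [sInf_eq_top]
  rintro κ ⟨A, hA, hK, rfl⟩
  exfalso
  apply hK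
  refine ⟨fun x => if x % 2 = 0 then x / 2 else swap (x / 2), fun a ha => ?_⟩
  obtain ⟨m, hm⟩ := hA ha
  constructor
  · refine ⟨m, fun n hn => ?_⟩
    have : {k | col n k ∈ {n | 2 * n ∈ (fun x => if x % 2 = 0 then x / 2 else swap (x / 2)) ⁻¹' a}}
        = {k | col n k ∈ a} := by
      ext k
      simp only [Set.mem_ofPred_eq, Set.mem_preimage]
      rw [if_pos (by omega), Nat.mul_div_cancel_left _ (by norm_num)]
    rw [this]
    exact hm n hn
  · refine ⟨m, fun n hn => ?_⟩
    have : {k | row n k ∈ {n | 2 * n + 1 ∈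
        (fun x => if x % 2 = 0 then x / 2 else swap (x / 2)) ⁻¹' a}} = {k | col n k ∈ a} := by
      ext k
      simp only [Set.mem_ofPred_eq, Set.mem_preimage]
      rw [if_neg (by omega), show (2 * row n k + 1) / 2 = row n k by omega]
      simp [swap, row, col]
    rw [this]
    exact hm n hn

/-- The key point: `ED col ≰_K ED col ∩ ED row`. -/
theorem not_katetov : ¬ KatetovLE (ED col) (ED col ∩ ED row) := by
  rintro ⟨f, hf⟩
  -- the column of the image
  let g : ℕ → ℕ → ℕ := fun n k => (Nat.unpair (f (col n k))).1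
  -- the graph of a function
  let gr : (ℕ → ℕ) → Set ℕ := fun h => {x | (Nat.unpair x).2 = h (Nat.unpair x).1}
  have hgr : ∀ h, gr h ∈ ED col := by
    intro h
    refine ⟨1, fun n _ => ?_⟩
    rw [Nat.cast_one, Set.encard_le_one_iff]
    intro a b ha hb
    simp only [gr, col, Set.mem_ofPred_eq, Nat.unpair_pair] at ha hb
    rw [ha, hb]
  have hcol : ∀ v, {x | (Nat.unpair x).1 = v} ∈ ED col := by
    intro v
    refine ⟨v + 1, fun n hn => ?_⟩
    have : {k | col n k ∈ {x | (Nat.unpair x).1 = v}} = ∅ := by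
      ext k
      simp only [col, Set.mem_ofPred_eq, Nat.unpair_pair, Set.mem_empty_iff_false, iff_false]
      omega
    rw [this]; simp
  -- Step 1: for almost all columns the range of `g n` is finite
  have step1 : ∃ n0, ∀ n ≥ n0, (Set.range (g n)).Finite := by
    by_contra hno
    push Not at hno
    -- we choose columns `c j` and finite sets of values
    have hch : ∀ (j : ℕ) (U : Finset ℕ), ∃ n ≥ j, ∃ K : Finset ℕ, K.card = j ∧
        Set.InjOn (g n) K ∧ ∀ k ∈ K, g n k ∉ U := by
      intro j U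
      obtain ⟨n, hn, hinf⟩ := hno j
      have h1 : (Set.range (g n) \ U).Infinite := hinf.sdiff U.finite_toSet
      obtain ⟨V, hV, hVc⟩ := h1.exists_subset_card_eq j
      have h2 : ∀ v : V, ∃ k, g n k = v := fun v => (hV v.2).1
      choose k hk using h2
      classical
      refine ⟨n, hn, Finset.univ.image k, ?_, ?_, ?_⟩
      · rw [Finset.card_image_of_injective, Finset.card_univ, Fintype.card_coe, hVc]
        intro a b hab
        have := hk a
        rw [hab, hk b] at this
        exact Subtype.ext this.symm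
      · intro a ha b hb hab
        rw [Finset.coe_image] at ha hb
        obtain ⟨a', _, rfl⟩ := ha
        obtain ⟨b', _, rfl⟩ := hb
        rw [hk, hk] at hab
        rw [Subtype.ext hab]
      · intro a ha
        rw [Finset.mem_image] at ha
        obtain ⟨a', _, rfl⟩ := ha
        rw [hk]
        exact (hV a'.2).2
    choose cn hcn K hK1 hK2 hK3 using hch
    classical
    -- the used values
    let U : ℕ → Finset ℕ := fun j => Nat.rec ∅ (fun j U => U ∪ (K j U).image (g (cn j U))) j
    have hU : ∀ j, U (j + 1) = U j ∪ (K j (U j)).image (g (cn j (U j))) := fun j => rfl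
    have hUmono : Monotone U := monotone_nat_of_le_succ fun j => by
      rw [hU]; exact Finset.subset_union_left
    -- the function `h`
    have hh : ∃ h : ℕ → ℕ, ∀ j, ∀ k ∈ K j (U j),
        (Nat.unpair (f (col (cn j (U j)) k))).2 = h (g (cn j (U j)) k) := by
      let Pv : ℕ → ℕ → Prop := fun v u => ∃ j, ∃ k ∈ K j (U j), g (cn j (U j)) k = v ∧
        (Nat.unpair (f (col (cn j (U j)) k))).2 = u
      have huniq : ∀ v u u', Pv v u → Pv v u' → u = u' := by
        rintro v u u' ⟨j, k, hk, hv, hu⟩ ⟨j', k', hk', hv', hu'⟩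
        have hjj : j = j' := by
          rcases lt_trichotomy j j' with h | h | h
          · exfalso
            have h1 : g (cn j (U j)) k ∈ U (j + 1) := by
              rw [hU]; exact Finset.mem_union_right _ (Finset.mem_image_of_mem _ hk)
            have h2 := hUmono h h1
            rw [hv, ← hv'] at h2
            exact hK3 j' (U j') k' hk' h2
          · exact h
          · exfalso
            have h1 : g (cn j' (U j')) k' ∈ U (j' + 1) := by
              rw [hU]; exact Finset.mem_union_right _ (Finset.mem_image_of_mem _ hk')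
            have h2 := hUmono h h1
            rw [hv', ← hv] at h2
            exact hK3 j (U j) k hk h2
        subst hjj
        have hkk : k = k' := hK2 j (U j) hk hk' (hv.trans hv'.symm)
        subst hkk
        exact hu.symm.trans hu'
      refine ⟨fun v => if h : ∃ u, Pv v u then h.choose else 0, fun j k hk => ?_⟩
      have hex : ∃ u, Pv (g (cn j (U j)) k) u := ⟨_, j, k, hk, rfl, rfl⟩
      beta_reduce
      rw [dif_pos hex]
      exact huniq _ _ _ ⟨j, k, hk, rfl, rfl⟩ hex.choose_spec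
    obtain ⟨h, hh⟩ := hh
    obtain ⟨m, hm⟩ := (hf _ (hgr h)).1
    have h1 := hm (cn (m + 1) (U (m + 1))) ((Nat.le_succ m).trans (hcn _ _))
    have h2 : ((K (m + 1) (U (m + 1)) : Finset ℕ) : Set ℕ) ⊆
        {k | col (cn (m + 1) (U (m + 1))) k ∈ f ⁻¹' gr h} := by
      intro k hk
      exact hh (m + 1) k hk
    have h3 := (Set.encard_le_encard h2).trans h1
    rw [Set.encard_coe_eq_coe_finsetCard, hK1] at h3
    have h4 : m + 1 ≤ m := by exact_mod_cast h3
    omega
  obtain ⟨n0, hn0⟩ := step1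
  -- the values taken infinitely often in column `n`
  let E : ℕ → Set ℕ := fun n => {v | {k | g n k = v}.Infinite}
  have hEfin : ∀ n ≥ n0, (E n).Finite := by
    intro n hn
    refine (hn0 n hn).subset ?_
    intro v hv
    obtain ⟨k, hk⟩ := Set.Infinite.nonempty (s := {k | g n k = v}) hv
    exact ⟨k, hk⟩
  -- each value is in `E n` for finitely many `n` only
  have hEv : ∀ v, ∃ m, ∀ n ≥ m, v ∉ E n := by
    intro v
    obtain ⟨m, hm⟩ := (hf _ (hcol v)).1
    refine ⟨m, fun n hn hv => ?_⟩
    have h1 := hm n hn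
    have h2 : {k | col n k ∈ f ⁻¹' {x | (Nat.unpair x).1 = v}} = {k | g n k = v} := rfl
    rw [h2] at h1
    have h3 : {k | g n k = v}.Finite := Set.finite_of_encard_le_coe h1
    exact hv h3
  -- almost all values in a column lie in `E n`
  have hEalm : ∀ n ≥ n0, ∃ b, ∀ k ≥ b, g n k ∈ E n := by
    intro n hn
    have h1 : (⋃ v ∈ Set.range (g n) \ E n, {k | g n k = v}).Finite := by
      refine ((hn0 n hn).sdiff).biUnion fun v hv => ?_
      exact Set.not_infinite.mp hv.2
    obtain ⟨b, hb⟩ := h1.bddAbove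
    refine ⟨b + 1, fun k hk => ?_⟩
    by_contra hnot
    have : k ≤ b := hb (Set.mem_biUnion (x := g n k) ⟨⟨k, rfl⟩, hnot⟩ rfl)
    omega
  -- Step 2: choose rows and columns
  have hcols : ∀ (j : ℕ) (U : Finset ℕ), ∃ C : Finset ℕ, C.card = j ∧ (∀ n ∈ C, n0 ≤ n) ∧
      (∀ n ∈ C, ∀ v ∈ E n, v ∉ U) ∧ ∀ n ∈ C, ∀ n' ∈ C, n ≠ n' → ∀ v ∈ E n, v ∉ E n' := by
    intro j U
    classical
    induction j with
    | zero => exact ⟨∅, by simp, by simp, by simp, by simp⟩
    | succ j ih =>
      obtain ⟨C, hC1, hC2, hC3, hC4⟩ := ih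
      -- avoid `U` and all `E n` with `n ∈ C`
      choose! bd hbd using hEv
      have hfin : (↑U ∪ ⋃ n ∈ C, E n : Set ℕ).Finite :=
        U.finite_toSet.union (C.finite_toSet.biUnion fun n hn => hEfin n (hC2 n hn))
      obtain ⟨B, hB⟩ := (hfin.image bd).bddAbove
      obtain ⟨N, hN⟩ := C.bddAbove
      let n1 := max (max B (N + 1)) n0
      have hn1B : B ≤ n1 := (le_max_left _ _).trans (le_max_left _ _)
      have hn1N : N + 1 ≤ n1 := (le_max_right _ _).trans (le_max_left _ _)
      have hn1C : n1 ∉ C := fun h => by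
        have := hN h
        omega
      have hn1 : ∀ v ∈ (↑U ∪ ⋃ n ∈ C, E n : Set ℕ), v ∉ E n1 := fun v hv =>
        hbd v n1 ((hB ⟨v, hv, rfl⟩).trans hn1B)
      refine ⟨insert n1 C, ?_, ?_, ?_, ?_⟩
      · rw [Finset.card_insert_of_notMem hn1C, hC1]
      · intro n hn
        rcases Finset.mem_insert.mp hn with rfl | hn
        · exact le_max_right _ _
        · exact hC2 n hn
      · intro n hn v hv hvU
        rcases Finset.mem_insert.mp hn with rfl | hn
        · exact hn1 v (Or.inl hvU) hv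
        · exact hC3 n hn v hv hvU
      · intro n hn n' hn' hne v hv hv'
        rcases Finset.mem_insert.mp hn with rfl | hn <;>
          rcases Finset.mem_insert.mp hn' with rfl | hn'
        · exact hne rfl
        · exact hn1 v (Or.inr (Set.mem_biUnion hn' hv')) hv
        · exact hn1 v (Or.inr (Set.mem_biUnion hn hv)) hv'
        · exact hC4 n hn n' hn' hne v hv hv'
  have hrows : ∀ (j : ℕ) (U : Finset ℕ), ∃ C : Finset ℕ, ∃ r ≥ j, C.card = j ∧
      (∀ n ∈ C, g n r ∉ U) ∧ Set.InjOn (fun n => g n r) C := by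
    intro j U
    obtain ⟨C, hC1, hC2, hC3, hC4⟩ := hcols j U
    choose! b hb using hEalm
    obtain ⟨B, hB⟩ := (C.finite_toSet.image b).bddAbove
    refine ⟨C, max B j, le_max_right _ _, hC1, fun n hn => ?_, ?_⟩
    · exact hC3 n hn _ (hb n (hC2 n hn) _ ((hB ⟨n, hn, rfl⟩).trans (le_max_left _ _)))
    · intro n hn n' hn' hnn
      by_contra hne
      have h1 := hb n (hC2 n hn) _ ((hB ⟨n, hn, rfl⟩).trans (le_max_left B j))
      have h2 := hb n' (hC2 n' hn') _ ((hB ⟨n', hn', rfl⟩).trans (le_max_left B j))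
      have hnn' : g n (max B j) = g n' (max B j) := hnn
      rw [← hnn'] at h2
      exact hC4 n hn n' hn' hne _ h1 h2
  choose C r hr hC1 hC2 hC3 using hrows
  classical
  let U : ℕ → Finset ℕ := fun j => Nat.rec ∅ (fun j U => U ∪ (C j U).image fun n => g n (r j U)) j
  have hU : ∀ j, U (j + 1) = U j ∪ (C j (U j)).image fun n => g n (r j (U j)) := fun j => rfl
  have hUmono : Monotone U := monotone_nat_of_le_succ fun j => by
    rw [hU]; exact Finset.subset_union_left
  have hh : ∃ h : ℕ → ℕ, ∀ j, ∀ n ∈ C j (U j),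
      (Nat.unpair (f (col n (r j (U j))))).2 = h (g n (r j (U j))) := by
    let Pv : ℕ → ℕ → Prop := fun v u => ∃ j, ∃ n ∈ C j (U j), g n (r j (U j)) = v ∧
      (Nat.unpair (f (col n (r j (U j))))).2 = u
    have huniq : ∀ v u u', Pv v u → Pv v u' → u = u' := by
      rintro v u u' ⟨j, n, hn, hv, hu⟩ ⟨j', n', hn', hv', hu'⟩
      have hjj : j = j' := by
        rcases lt_trichotomy j j' with h | h | h
        · exfalso
          have h1 : g n (r j (U j)) ∈ U (j + 1) := by
            rw [hU]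
            exact Finset.mem_union_right _ (Finset.mem_image_of_mem (fun n => g n (r j (U j))) hn)
          have h2 := hUmono h h1
          rw [hv, ← hv'] at h2
          exact hC2 j' (U j') n' hn' h2
        · exact h
        · exfalso
          have h1 : g n' (r j' (U j')) ∈ U (j' + 1) := by
            rw [hU]
            exact Finset.mem_union_right _
              (Finset.mem_image_of_mem (fun n => g n (r j' (U j'))) hn')
          have h2 := hUmono h h1
          rw [hv', ← hv] at h2
          exact hC2 j (U j) n hn h2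
      subst hjj
      have hkk : n = n' := hC3 j (U j) hn hn' (hv.trans hv'.symm)
      subst hkk
      exact hu.symm.trans hu'
    refine ⟨fun v => if h : ∃ u, Pv v u then h.choose else 0, fun j n hn => ?_⟩
    have hex : ∃ u, Pv (g n (r j (U j))) u := ⟨_, j, n, hn, rfl, rfl⟩
    beta_reduce
    rw [dif_pos hex]
    exact huniq _ _ _ ⟨j, n, hn, rfl, rfl⟩ hex.choose_spec
  obtain ⟨h, hh⟩ := hh
  obtain ⟨m, hm⟩ := (hf _ (hgr h)).2
  have h1 := hm (r (m + 1) (U (m + 1))) ((Nat.le_succ m).trans (hr _ _))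
  have h2 : ((C (m + 1) (U (m + 1)) : Finset ℕ) : Set ℕ) ⊆
      {k | row (r (m + 1) (U (m + 1))) k ∈ f ⁻¹' gr h} := by
    intro n hn
    exact hh (m + 1) n hn
  have h3 := (Set.encard_le_encard h2).trans h1
  rw [Set.encard_coe_eq_coe_finsetCard, hC1] at h3
  have h4 : m + 1 ≤ m := by exact_mod_cast h3
  omega

/-- Statement (ii) fails in ZFC: there are ideals `I, J0, J1` on `ω` with
`p_K(I, J0 ∩ J1) < ∞ = p_K(I, J0 ⊕ J1)`. -/
theorem result : ∃ I J0 J1 : Set (Set ℕ), IsIdealOn I ∧ IsIdealOn J0 ∧ IsIdealOn J1 ∧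
    pK I (J0 ∩ J1) < pK I (sumIdeal J0 J1) ∧ pK I (sumIdeal J0 J1) = ⊤ := by
  refine ⟨ED col, ED col, ED row, ED_ideal col_inj col_fin, ED_ideal col_inj col_fin,
    ED_ideal row_inj row_fin, ?_, pK_sum_eq_top⟩
  rw [pK_sum_eq_top]
  refine lt_of_le_of_lt (sInf_le ⟨ED col, subset_rfl, not_katetov, rfl⟩) ?_
  exact WithTop.coe_lt_top _

end Pool.Agent.Results.MP_8697f8_lc.KatetovIntersection
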